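import Pool.Agent.Helper37.Canopy.Core

/-! Definitions of the ladder section (verbatim from the skeleton). -/

namespace Pool.Agent.Helper37.Canopy

open MeasureTheory ProbabilityTheory unitInterval SimpleGraph

/-- Ray columns up to level `κ` and sibling strips below level `κ`. -/
def Lreg (D : Type) (κ : ℕ) : Set (LV D) :=
  {q | (q.2.1 = none ∧ q.1 ≤ κ) ∨ (q.2.1 ≠ none ∧ q.1 < κ)}

/-- The edges of the region `Lreg (κ + r)` which are not inside `Lreg κ`. -/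
def fresh (D : Type) (κ r : ℕ) : SimpleGraph (LV D) where
  Adj q q' := (res (LG D) (Lreg D (κ + r))).Adj q q' ∧ ¬ (q ∈ Lreg D κ ∧ q' ∈ Lreg D κ)
  symm := ⟨fun _ _ h => ⟨h.1.symm, fun h' => h.2 ⟨h'.2, h'.1⟩⟩⟩
  loopless := ⟨fun _ h => h.1.ne rfl⟩

/-- From the heights `X` on the ray column `κ`, using fresh edges, one reaches at least `T'`
heights in `[a, b]` on the ray column `κ + r`. -/
def roundEv (D : Type) (κ r : ℕ) (X : Finset ℤ) (T' : ℕ) (a b : ℤ) :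
    Set (Cfg (Sym2 (LV D))) :=
  {ω | ∃ Y : Finset ℤ, T' ≤ Y.card ∧ (∀ y ∈ Y, a ≤ y ∧ y ≤ b) ∧
    ∀ y ∈ Y, ∃ x ∈ X, (opn (fresh D κ r) ω).Reachable (κ, none, x) (κ + r, none, y)}

end Pool.Agent.Helper37.Canopy
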