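import Pool.Agent.Helper37.Canopy.Core
import Pool.Agent.Helper37.Canopy.Meas
import Pool.Agent.Helper37.Canopy.Graph
import Pool.Agent.Helper52.Canopy.LDefs

namespace Pool.Agent.Helper37.Canopy

open MeasureTheory ProbabilityTheory unitInterval SimpleGraph



section L

variable {D : Type} [AddCommGroup D] [Fintype D] [DecidableEq D] [Nontrivial D]

theorem Lreg_mono {κ κ' : ℕ} (h : κ ≤ κ') : Lreg D κ ⊆ Lreg D κ' := by
  rintro q (⟨h1, h2⟩ | ⟨h1, h2⟩)
  · exact Or.inl ⟨h1, h2.trans h⟩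
  · exact Or.inr ⟨h1, lt_of_lt_of_le h2 h⟩

theorem res_mono' {W : Type*} (G : SimpleGraph W) {R R' : Set W} (h : R ⊆ R') :
    res G R ≤ res G R' := by
  intro x y hxy
  exact ⟨hxy.1, h hxy.2.1, h hxy.2.2⟩

theorem res_le' {W : Type*} (G : SimpleGraph W) (R : Set W) : res G R ≤ G := by
  intro x y hxy
  exact hxy.1

/-- reaching `T` heights in `[a, b]` of the ray column `κ` from `o`, inside `Lreg κ`. -/
def stEv (D : Type) (o : LV D) (κ T : ℕ) (a b : ℤ) : Set (Cfg (Sym2 (LV D))) :=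
  {ω | ∃ X : Finset ℤ, T ≤ X.card ∧ (∀ x ∈ X, a ≤ x ∧ x ≤ b) ∧
    ∀ x ∈ X, ω ∈ conn (res (LG D) (Lreg D κ)) o (κ, none, x)}

theorem measurableSet_stEv (o : LV D) (κ T : ℕ) (a b : ℤ) : MeasurableSet (stEv D o κ T a b) := by
  have : stEv D o κ T a b = ⋃ X : Finset ℤ, ⋃ (_ : T ≤ X.card ∧ (∀ x ∈ X, a ≤ x ∧ x ≤ b)),
      ⋂ x ∈ X, conn (res (LG D) (Lreg D κ)) o (κ, none, x) := by
    ext ω
    simp [stEv, and_assoc]
  rw [this]
  refine MeasurableSet.iUnion fun X => MeasurableSet.iUnion fun _ => ?_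
  exact Finset.measurableSet_biInter X fun x _ => measurableSet_conn _ _ _

theorem stEv_dep (o : LV D) (κ T : ℕ) (a b : ℤ) {κ' : ℕ} (h : κ ≤ κ') :
    Dep (res (LG D) (Lreg D κ')).edgeSet (stEv D o κ T a b) := by
  rintro ω ω' hω ⟨X, h1, h2, h3⟩
  refine ⟨X, h1, h2, fun x hx => ?_⟩
  refine conn_dep _ _ _ ω ω' (fun e he => hω e ?_) (h3 x hx)
  exact SimpleGraph.edgeSet_mono (res_mono' _ (Lreg_mono h)) he

theorem splice_agree {E : Type*} (S : Set E) (ω ω' : Cfg E) : ∀ e ∈ S, ω e = splice S ω ω' e := by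
  intro e he
  simp [splice, he]

theorem splice_agree' {E : Type*} (S : Set E) (ω ω' : Cfg E) :
    ∀ e, e ∉ S → splice S ω ω' e = ω' e := by
  intro e he
  simp [splice, he]

theorem st_step {ω ω' : Cfg (Sym2 (LV D))} {o : LV D} {κ r : ℕ} {X : Finset ℤ} {T' : ℕ} {a b : ℤ}
    (hX : ∀ x ∈ X, ω ∈ conn (res (LG D) (Lreg D κ)) o (κ, none, x))
    (hω' : ω' ∈ roundEv D κ r X T' a b) :
    splice (res (LG D) (Lreg D κ)).edgeSet ω ω' ∈ stEv D o (κ + r) T' a b := by
  set S := (res (LG D) (Lreg D κ)).edgeSet with hS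
  set ω'' := splice S ω ω' with hω''
  obtain ⟨Y, h1, h2, h3⟩ := hω'
  refine ⟨Y, h1, h2, fun y hy => ?_⟩
  obtain ⟨x, hx, hxy⟩ := h3 y hy
  have e1 : ω'' ∈ conn (res (LG D) (Lreg D κ)) o (κ, none, x) :=
    conn_dep _ _ _ ω ω'' (splice_agree S ω ω') (hX x hx)
  have e2 : (opn (res (LG D) (Lreg D (κ + r))) ω'').Reachable o (κ, none, x) :=
    SimpleGraph.Reachable.mono
      (opn_mono (res_mono' _ (Lreg_mono (Nat.le_add_right κ r))) le_rfl) e1
  have e3 : opn (fresh D κ r) ω' ≤ opn (res (LG D) (Lreg D (κ + r))) ω'' := by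
    intro u v huv
    refine ⟨huv.1.1, ?_⟩
    rw [hω'', splice_agree' S ω ω']
    · exact huv.2
    · intro hmem
      rw [hS, SimpleGraph.mem_edgeSet] at hmem
      exact huv.1.2 hmem.2
  exact e2.trans (hxy.mono e3)

theorem reach_vert {κ : ℕ} {a : ℤ} (ha : 0 ≤ a) (h : ℕ) (ω : Cfg (Sym2 (LV D)))
    (hω : ∀ i < h, ω s(((κ, none, a + i) : LV D), (κ, none, a + i + 1)) = true) :
    ∀ i ≤ h, ω ∈ conn (res (LG D) (Lreg D κ)) (κ, none, a) (κ, none, a + i) := by
  intro i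
  induction i with
  | zero =>
    intro _
    simp only [Nat.cast_zero, add_zero]
    exact SimpleGraph.Reachable.refl _
  | succ i ih =>
    intro hi
    refine SimpleGraph.Reachable.trans (ih (by omega)) ?_
    apply SimpleGraph.Adj.reachable
    have hc : a + ((i + 1 : ℕ) : ℤ) = a + i + 1 := by push_cast; ring
    rw [hc]
    refine ⟨⟨?_, Or.inl ⟨rfl, le_rfl⟩, Or.inl ⟨rfl, le_rfl⟩⟩, hω i (by omega)⟩
    rw [LG, SimpleGraph.fromRel_adj]
    refine ⟨?_, Or.inl (LAdj.vert κ (a + i) (by positivity))⟩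
    intro he
    have := congrArg (fun q : LV D => q.2.2) he
    simp at this

theorem Pr_stEv_zero {p : I} (hp : 0 < p) {κ T h : ℕ} {a : ℤ} (ha : 0 ≤ a) (hT : T ≤ h + 1) :
    0 < Pr p (stEv D (κ, none, a) κ T a (a + h)) := by
  classical
  set F : Finset (Sym2 (LV D)) :=
    (Finset.range h).image
    (fun i : ℕ => s(((κ, none, a + (i : ℤ)) : LV D), (κ, none, a + (i : ℤ) + 1))) with hF
  have h1 : {ω : Cfg (Sym2 (LV D)) | ∀ e ∈ F, ω e = true} ⊆ stEv D (κ, none, a) κ T a (a + h) := by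
    intro ω hω
    have hω' : ∀ i < h, ω s(((κ, none, a + i) : LV D), (κ, none, a + i + 1)) = true := by
      intro i hi
      exact hω _ (Finset.mem_image.2 ⟨i, Finset.mem_range.2 hi, rfl⟩)
    refine ⟨(Finset.range (h + 1)).image (fun i : ℕ => a + (i : ℤ)), ?_, ?_, ?_⟩
    · rw [Finset.card_image_of_injective _ (fun i j hij => by simpa using hij), Finset.card_range]
      exact hT
    · intro x hx
      obtain ⟨i, hi, rfl⟩ := Finset.mem_image.1 hx
      have := Finset.mem_range.1 hi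
      constructor <;> omega
    · intro x hx
      obtain ⟨i, hi, rfl⟩ := Finset.mem_image.1 hx
      exact reach_vert ha h ω hω' i (by have := Finset.mem_range.1 hi; omega)
  have h2 : Pr p {ω : Cfg (Sym2 (LV D)) | ∀ e ∈ F, ω e = true} ≤
      Pr p (stEv D (κ, none, a) κ T a (a + h)) := by
    unfold Pr
    exact measureReal_mono h1 (measure_ne_top _ _)
  rw [Pr_open] at h2
  have hp' : (0 : ℝ) < p := hp
  exact lt_of_lt_of_le (pow_pos hp' _) h2

/-- L2: chaining the rounds. -/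
theorem chain_rounds {p : I} (hp : 0 < p) (κ r h T : ℕ → ℕ) (α : ℕ → ℤ) (ε : ℕ → ℝ)
    (hκ : ∀ n, κ (n + 1) = κ n + r n) (hr : ∀ n, 1 ≤ r n) (hα : ∀ n, α (n + 1) = α n + h n)
    (hα0 : 0 ≤ α 0) (hh : ∀ n, 2 * h n ≤ h (n + 1)) (hT0 : T 0 ≤ h 0 + 1)
    (hT1 : ∀ n, 1 ≤ T n)
    (hround : ∀ n, ∀ X : Finset ℤ, T n ≤ X.card → (∀ x ∈ X, α n ≤ x ∧ x ≤ α n + h n) →
      1 - ε n ≤ Pr p (roundEv D (κ n) (r n) X (T (n + 1)) (α n + h n + 1) (α n + 3 * h n)))
    (hε : ∀ n, 0 ≤ ε n) (hs : Summable ε) (hs1 : ∑' n, ε n < 1) :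
    0 < Pr p (infEv (LG D)) := by
  classical
  set o : LV D := (κ 0, none, α 0) with ho
  set A : ℕ → Set (Cfg (Sym2 (LV D))) := fun n => stEv D o (κ n) (T n) (α n) (α n + h n) with hA
  set F : ℕ → Set (Cfg (Sym2 (LV D))) := fun n => ⋂ i ∈ Finset.range (n + 1), A i with hF
  have hκm : StrictMono κ := strictMono_nat_of_lt_succ fun n => by
    have := hκ n; have := hr n; omega
  have mA : ∀ n, MeasurableSet (A n) := fun n => measurableSet_stEv _ _ _ _ _
  have mF : ∀ n, MeasurableSet (F n) := fun n => Finset.measurableSet_biInter _ fun i _ => mA i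
  have F0 : F 0 = A 0 := by simp [hF]
  have Fs : ∀ n, F (n + 1) = F n ∩ A (n + 1) := by
    intro n
    simp only [hF]
    rw [Finset.range_add_one (n := n + 1), Finset.set_biInter_insert, Set.inter_comm]
  have Fsub : ∀ n, F (n + 1) ⊆ F n := fun n => by rw [Fs]; exact Set.inter_subset_left
  have Fanti : Antitone F := antitone_nat_of_succ_le Fsub
  have dF : ∀ n, Dep (res (LG D) (Lreg D (κ n))).edgeSet (F n) := by
    intro n ω ω' hω hmem
    simp only [hF, Set.mem_iInter] at hmem ⊢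
    intro i hi
    exact stEv_dep _ _ _ _ _ (hκm.monotone (by have := Finset.mem_range.1 hi; omega)) ω ω' hω
      (hmem i hi)
  have step : ∀ n, (1 - ε n) * Pr p (F n) ≤ Pr p (F (n + 1)) := by
    intro n
    refine mul_Pr_le_of_splice (res (LG D) (Lreg D (κ n))).edgeSet (mF (n + 1)) (mF n) ?_
    intro ω hω
    have hωn : ω ∈ A n := by
      simp only [hF, Set.mem_iInter] at hω
      exact hω n (Finset.mem_range.2 (Nat.lt_succ_self n))
    obtain ⟨X, hX1, hX2, hX3⟩ := hωn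
    refine (hround n X hX1 hX2).trans ?_
    unfold Pr
    refine measureReal_mono ?_ (measure_ne_top _ _)
    intro ω' hω'
    have h1 := st_step (T' := T (n + 1)) hX3 hω'
    show splice _ ω ω' ∈ F (n + 1)
    rw [Fs]
    refine ⟨dF n ω _ (splice_agree _ ω ω') hω, ?_⟩
    obtain ⟨Y, hY1, hY2, hY3⟩ := h1
    refine ⟨Y, hY1, fun y hy => ?_, ?_⟩
    · have h2 := hY2 y hy
      have h3 := hh n
      rw [hα n]
      constructor
      · linarith [h2.1]
      · have : ((2 * h n : ℕ) : ℤ) ≤ (h (n + 1) : ℕ) := by exact_mod_cast h3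
        push_cast at this
        linarith [h2.2]
    · rw [hκ n]
      exact hY3
  have hPF0 : 0 < Pr p (F 0) := by
    rw [F0]
    exact Pr_stEv_zero hp hα0 hT0
  have hPle : ∀ n, Pr p (F n) ≤ Pr p (F 0) := by
    intro n
    unfold Pr
    exact measureReal_mono (Fanti (Nat.zero_le n)) (measure_ne_top _ _)
  have lower : ∀ n, Pr p (F 0) * (1 - ∑ i ∈ Finset.range n, ε i) ≤ Pr p (F n) := by
    intro n
    induction n with
    | zero => simp
    | succ n ih =>
      rw [Finset.sum_range_succ]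
      have h1 := step n
      have h2 : ε n * Pr p (F n) ≤ ε n * Pr p (F 0) := mul_le_mul_of_nonneg_left (hPle n) (hε n)
      nlinarith
  have lower' : ∀ n, Pr p (F 0) * (1 - ∑' i, ε i) ≤ Pr p (F n) := by
    intro n
    refine le_trans ?_ (lower n)
    refine mul_le_mul_of_nonneg_left ?_ hPF0.le
    have := hs.sum_le_tsum (Finset.range n) (fun i _ => hε i)
    linarith
  have hpos : 0 < Pr p (F 0) * (1 - ∑' i, ε i) := mul_pos hPF0 (by linarith)
  have hinter : Pr p (F 0) * (1 - ∑' i, ε i) ≤ Pr p (⋂ n, F n) := by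
    have ht : Filter.Tendsto (fun n => (mu (Sym2 (LV D)) p).real (F n)) Filter.atTop
        (nhds ((mu (Sym2 (LV D)) p).real (⋂ n, F n))) := by
      have h1 : Filter.Tendsto (fun n => (mu (Sym2 (LV D)) p) (F n)) Filter.atTop
        (nhds ((mu (Sym2 (LV D)) p) (⋂ n, F n))) :=
        tendsto_measure_iInter_atTop (fun n => (mF n).nullMeasurableSet) Fanti
          ⟨0, measure_ne_top _ _⟩
      exact (ENNReal.tendsto_toReal (measure_ne_top _ _)).comp h1
    exact ge_of_tendsto' ht lower'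
  refine lt_of_lt_of_le hpos (hinter.trans ?_)
  unfold Pr
  refine measureReal_mono ?_ (measure_ne_top _ _)
  intro ω hω
  refine ⟨o, ?_⟩
  have hx : ∀ n, ∃ x : ℤ, (opn (LG D) ω).Reachable o (κ n, none, x) := by
    intro n
    have h1 : ω ∈ A n := by
      have h2 := Set.mem_iInter.1 hω n
      simp only [hF, Set.mem_iInter] at h2
      exact h2 n (Finset.mem_range.2 (Nat.lt_succ_self n))
    obtain ⟨X, hX1, hX2, hX3⟩ := h1
    have hne : X.Nonempty := Finset.card_pos.1 (lt_of_lt_of_le (hT1 n) hX1)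
    obtain ⟨x, hx⟩ := hne
    exact ⟨x, SimpleGraph.Reachable.mono (opn_mono (res_le' _ _) le_rfl) (hX3 x hx)⟩
  choose x hx using hx
  refine Set.infinite_of_injective_forall_mem (f := fun n => ((κ n, none, x n) : LV D)) ?_ hx
  intro m n hmn
  exact hκm.injective (congrArg Prod.fst hmn)

end L

end Pool.Agent.Helper37.Canopy
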